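import Pool.Agent.Helper38.TH.GoalsA
import Pool.Agent.Helper17.PP.FinA

/-!
# Project TH, packet TH-T_BLK
-/

set_option autoImplicit false

namespace Pool.Agent.Helper47.TH

open Finset Pool.Agent.Helper17.PP Pool.Agent.Helper17.PP0 Pool.Agent.Helper11.M3
  Pool.Agent.Helper38.TH

section

variable {p : ℕ} {B B₀ k U Λ C : Type} [Field k] [AddCommGroup U] [Module k U]
    [AddCommGroup Λ] [Module k Λ] [AddCommGroup C] (S : Sys p B B₀ k U Λ C)

open Classical in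
/-- The sum over `q` in the blocks in `[s, J)` is a sum over the blocks. -/
theorem sum_blocks' (b : Finset B) (Φ I : B → Prop) (s J : ℕ) (F : B → ℝ)
    (h : ∀ q ∈ b, S.bl q < J) :
    ∑ q ∈ b with (Φ q ∧ s ≤ S.bl q ∧ I q), F q =
      ∑ j ∈ Ico s J, ∑ q ∈ b with (Φ q ∧ S.bl q = j ∧ I q), F q := by
  rw [← Finset.sum_fiberwise_of_maps_to (s := b.filter fun q ↦ Φ q ∧ s ≤ S.bl q ∧ I q)
    (t := Ico s J) (g := S.bl)]
  · refine Finset.sum_congr rfl fun j hj ↦ Finset.sum_congr ?_ fun _ _ ↦ rfl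
    rw [mem_Ico] at hj
    ext q
    simp only [mem_filter]
    constructor
    · rintro ⟨⟨h1, h2, h3, h5⟩, h4⟩
      exact ⟨h1, h2, h4, h5⟩
    · rintro ⟨h1, h2, h3, h4⟩
      exact ⟨⟨h1, h2, by omega, h4⟩, h3⟩
  · intro q hq
    simp only [mem_filter] at hq
    exact mem_Ico.2 ⟨hq.2.2.1, h q hq.1⟩

end

theorem t_blk : T_BLK := by
  classical
  intro hSTJ hLRG hSMG hSML hSM2
  intro p _ B B₀ k U Λ C _ _ _ _ _ _ _ _ _ _ _ S ψ Lk Cs M κ g K hyp ε hε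
  obtain ⟨K₁, hK₁⟩ := hLRG p B B₀ k U Λ C S ψ Lk Cs M κ g K hyp
  have hyp₀ := hyp.toHyp₃.toHyp₀
  obtain ⟨K₂, hK₂⟩ := hSML p B B₀ k U Λ C S ψ g K hyp₀
  have hK : 1 ≤ K := hyp₀.one_le
  obtain ⟨A, hA1, hA⟩ := hSMG K K₁ hK
  set E := 2 * K * (K + 1) with hE
  have hE1 : 1 ≤ E := by
    rw [hE]; nlinarith
  set Q : ℝ := (Fintype.card k : ℝ) with hQ
  set ρ : ℝ := (Fintype.card U / Fintype.card Λ : ℝ) with hρ
  set e : ℝ := ε / (K₁ + K₂ + 1) with he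
  have he0 : 0 < e := by positivity
  have hVe : (K₁ + K₂ + 1) * e = ε := by
    rw [he]; field_simp
  obtain ⟨jE, hjE⟩ := le_th_of_large E hE1
  obtain ⟨L1, hL1⟩ := hA e he0
  obtain ⟨j2, hj2⟩ := hSM2 K K₂ A e hK he0
  obtain ⟨L2, hL2⟩ := hj2 j2 le_rfl
  set j₀ := 2 + jE + j2 with hj₀
  refine ⟨2 ^ (L1 + L2 + 9 + j₀ * j₀), fun X hX V' G I hG hI P hP ↦ ?_⟩
  have hLX := le_lg hX
  set L := lg X with hL
  set s := Nat.sqrt L with hs
  have hX1 : 1 ≤ X := le_trans (one_le_pow₀ (by norm_num)) hX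
  have hj₀s : j₀ ≤ s := by
    rw [hs, Nat.le_sqrt]; omega
  have hgX : 1 ≤ g X := hyp₀.g_one X
  have hXg : 0 ≤ X * g X := by positivity
  have hth : ∀ j, s ≤ j → j ≤ th E j := fun j hj ↦ hjE j (by omega)
  -- one block
  have hT : ∀ j, s ≤ j →
      ∑ b ∈ P.powerset with S.Fam b, ∑ q ∈ b with (S.Wt E b q ∧ S.bl q = j ∧ I q),
        G b * (S.cnt E b q : ℝ) * Real.exp (-(S.nm b / X)) ≤
      ρ * (Q - 1) * ∑ b ∈ P.powerset with S.Fam b,
        ∑ q ∈ b with (S.Wt E b q ∧ S.bl q = j ∧ I q),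
          G b * (1 / Q) ^ (S.rt E b q).card * Real.exp (-(S.nm b / X)) +
      (K₂ * (((ti A j : ℝ) + 2) ^ K₂ / j * min 1 (2 ^ (L + 1) / 2 ^ j) *
        ((max 1 (min j (L - (j + 1 + ti A j))) : ℕ) : ℝ) ^ (-(1 / K : ℝ))) * (X * g X) +
      K₁ * (∑ i ∈ Ico (ti A j) (tb E j),
        ((L : ℝ) + 2) ^ K₁ * ((i : ℝ) + 1) ^ K * (2 : ℝ) ^ (-(min i j : ℝ) / K)) *
          (X * g X)) := by
    intro j hj
    have hj1 : 1 ≤ j := by omega
    have hti : 1 ≤ ti A j := by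
      unfold ti
      have : 1 ≤ Nat.log 2 j := Nat.le_log_of_pow_le (by norm_num) (by omega)
      nlinarith
    have h := hSTJ p B B₀ k U Λ C S ψ hyp₀.ψ_ne G I (fun b ↦ ⟨hG.nonneg b, hG.le_one b⟩)
      E A j X P hti hj1 (hth j hj) hX1
    refine h.trans ?_
    rw [add_assoc]
    refine add_le_add le_rfl (add_le_add ?_ ?_)
    · refine (hK₂ E j (ti A j) X P hj1 (hth j hj) hX1).trans ?_
      have hm := min_bound X j
      have h2 : (0 : ℝ) ≤ K₂ * (((ti A j : ℝ) + 2) ^ K₂ / j) := by positivity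
      have h3 : (0 : ℝ) ≤ ((max 1 (min j (lg X - (j + 1 + ti A j))) : ℕ) : ℝ) ^
        (-(1 / K : ℝ)) := by positivity
      calc (K₂ : ℝ) * (ti A j + 2) ^ K₂ / j * min 1 (X / 2 ^ j) *
          ((max 1 (min j (lg X - (j + 1 + ti A j))) : ℕ) : ℝ) ^ (-(1 / K : ℝ)) * (X * g X)
          = K₂ * (((ti A j : ℝ) + 2) ^ K₂ / j) * min 1 (X / 2 ^ j) *
          ((max 1 (min j (lg X - (j + 1 + ti A j))) : ℕ) : ℝ) ^ (-(1 / K : ℝ)) * (X * g X) := by
            ring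
        _ ≤ K₂ * (((ti A j : ℝ) + 2) ^ K₂ / j) * min 1 (2 ^ (lg X + 1) / 2 ^ j) *
          ((max 1 (min j (lg X - (j + 1 + ti A j))) : ℕ) : ℝ) ^ (-(1 / K : ℝ)) *
            (X * g X) := by
            exact mul_le_mul_of_nonneg_right
              (mul_le_mul_of_nonneg_right (mul_le_mul_of_nonneg_left hm h2) h3) hXg
        _ = _ := by ring
    · refine (Finset.sum_le_sum fun i _ ↦
        hK₁ V' G I hG hI E i j X P hj1 (hth j hj) hX1).trans (le_of_eq ?_)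
      rw [Finset.mul_sum, Finset.sum_mul]
      refine Finset.sum_congr rfl fun i _ ↦ ?_
      rw [← hL]
      ring
  have hrest0 : ∀ j, 0 ≤ (K₂ : ℝ) * (((ti A j : ℝ) + 2) ^ K₂ / j *
        min 1 (2 ^ (L + 1) / 2 ^ j) *
        ((max 1 (min j (L - (j + 1 + ti A j))) : ℕ) : ℝ) ^ (-(1 / K : ℝ))) * (X * g X) := by
    intro j
    positivity
  set J := th E s + 1 with hJ
  have hsum : ∑ j ∈ Ico s J, ((K₂ : ℝ) * (((ti A j : ℝ) + 2) ^ K₂ / j *
        min 1 (2 ^ (L + 1) / 2 ^ j) *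
        ((max 1 (min j (L - (j + 1 + ti A j))) : ℕ) : ℝ) ^ (-(1 / K : ℝ))) * (X * g X) +
      K₁ * (∑ i ∈ Ico (ti A j) (tb E j),
        ((L : ℝ) + 2) ^ K₁ * ((i : ℝ) + 1) ^ K * (2 : ℝ) ^ (-(min i j : ℝ) / K)) *
          (X * g X)) ≤ ε * (X * g X) := by
    rw [Finset.sum_add_distrib]
    have h1 : ∑ j ∈ Ico s J, (K₂ : ℝ) * (((ti A j : ℝ) + 2) ^ K₂ / j *
        min 1 (2 ^ (L + 1) / 2 ^ j) *
        ((max 1 (min j (L - (j + 1 + ti A j))) : ℕ) : ℝ) ^ (-(1 / K : ℝ))) * (X * g X) ≤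
        K₂ * e * (X * g X) := by
      refine (Finset.sum_le_sum_of_subset_of_nonneg (Finset.Ico_subset_Ico
        (show j2 ≤ s by omega) le_rfl) fun j _ _ ↦ hrest0 j).trans ?_
      rw [← Finset.sum_mul, ← Finset.mul_sum]
      exact mul_le_mul_of_nonneg_right (mul_le_mul_of_nonneg_left (hL2 L (by omega) J)
        (by positivity)) hXg
    have h2 : ∑ j ∈ Ico s J, (K₁ : ℝ) * (∑ i ∈ Ico (ti A j) (tb E j),
        ((L : ℝ) + 2) ^ K₁ * ((i : ℝ) + 1) ^ K * (2 : ℝ) ^ (-(min i j : ℝ) / K)) *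
          (X * g X) ≤ K₁ * e * (X * g X) := by
      rw [← Finset.sum_mul, ← Finset.mul_sum]
      exact mul_le_mul_of_nonneg_right (mul_le_mul_of_nonneg_left (hL1 L (by omega) J)
        (by positivity)) hXg
    refine (add_le_add h1 h2).trans ?_
    have h3 : 0 ≤ e * (X * g X) := by positivity
    rw [← hVe]
    nlinarith [h3]
  -- the blocks
  have hbl : ∀ b ∈ P.powerset.filter (fun b ↦ S.Fam b), ∀ q ∈ b, S.bl q < J := by
    intro b hb q hq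
    rw [mem_filter, mem_powerset] at hb
    exact Nat.lt_succ_of_le (hP q (hb.1 hq))
  have hleft : ∑ b ∈ P.powerset with S.Fam b,
      (∑ q ∈ b with (S.Wt E b q ∧ s ≤ S.bl q ∧ I q), (S.cnt E b q : ℝ)) *
        (G b * Real.exp (-(S.nm b / X))) =
      ∑ j ∈ Ico s J, ∑ b ∈ P.powerset with S.Fam b,
        ∑ q ∈ b with (S.Wt E b q ∧ S.bl q = j ∧ I q),
          G b * (S.cnt E b q : ℝ) * Real.exp (-(S.nm b / X)) := by
    rw [Finset.sum_comm]
    refine Finset.sum_congr rfl fun b hb ↦ ?_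
    rw [← sum_blocks' S b (fun q ↦ S.Wt E b q) I s J _ (hbl b hb), Finset.sum_mul]
    exact Finset.sum_congr rfl fun q _ ↦ by ring
  have hmain : ∑ j ∈ Ico s J, ∑ b ∈ P.powerset with S.Fam b,
        ∑ q ∈ b with (S.Wt E b q ∧ S.bl q = j ∧ I q),
          G b * (1 / Q) ^ (S.rt E b q).card * Real.exp (-(S.nm b / X)) =
      ∑ b ∈ P.powerset with S.Fam b,
        (∑ q ∈ b with (S.Wt E b q ∧ s ≤ S.bl q ∧ I q), (1 / Q) ^ (S.rt E b q).card) *
        (G b * Real.exp (-(S.nm b / X))) := by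
    rw [Finset.sum_comm]
    refine Finset.sum_congr rfl fun b hb ↦ ?_
    rw [← sum_blocks' S b (fun q ↦ S.Wt E b q) I s J _ (hbl b hb), Finset.sum_mul]
    exact Finset.sum_congr rfl fun q _ ↦ by ring
  rw [hleft]
  refine (Finset.sum_le_sum fun j hj ↦ hT j (mem_Ico.1 hj).1).trans ?_
  rw [Finset.sum_add_distrib, ← Finset.mul_sum, hmain]
  refine add_le_add (le_of_eq ?_) hsum
  rw [mul_assoc, Finset.mul_sum]
  congr 1
  refine Finset.sum_congr rfl fun b _ ↦ ?_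
  rw [← Finset.mul_sum]
  ring

end Pool.Agent.Helper47.TH
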